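import Pool.Agent.Lib.MP_b8d9b4_co.Low.Asm
import Pool.Agent.Lib.MP_b8d9b4_co.Top.P.core
import Pool.Agent.Lib.MP_b8d9b4_co.Top.P.crt
import Pool.Agent.Lib.MP_b8d9b4_co.Top.P.pos
import Pool.Agent.Lib.MP_b8d9b4_co.Top.P.oth
import Pool.Agent.Lib.MP_b8d9b4_co.Top.P.free
import Pool.Agent.Lib.MP_b8d9b4_co.Top.P.fpt
import Pool.Agent.Lib.MP_b8d9b4_co.Top.P.mown
import Pool.Agent.Lib.MP_b8d9b4_co.Top.P.mneed
import Pool.Agent.Lib.MP_b8d9b4_co.Top.P.cov
import Pool.Agent.Lib.MP_b8d9b4_co.Top.P.mphi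
import Pool.Agent.Lib.MP_b8d9b4_co.Top.P.phi
import Pool.Agent.Lib.MP_b8d9b4_co.Top.P.H
import Pool.Agent.Lib.MP_b8d9b4_co.Top.P.cfg
import Pool.Agent.Lib.MP_b8d9b4_co.Top.P.cnt
import Pool.Agent.Lib.MP_b8d9b4_co.Top.P.cz
import Pool.Agent.Lib.MP_b8d9b4_co.Top.P.cphi
import Pool.Agent.Lib.MP_b8d9b4_co.Top.P.cphi0
import Pool.Agent.Lib.MP_b8d9b4_co.Top.P.cown
import Pool.Agent.Lib.MP_b8d9b4_co.Top.P.main
import Pool.Agent.Lib.MP_b8d9b4_co.Top.P.stA
import Pool.Agent.Lib.MP_b8d9b4_co.Top.P.tr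
import Pool.Agent.Lib.MP_b8d9b4_co.Top.P.gr
import Pool.Agent.Lib.MP_b8d9b4_co.Top.P.up
import Pool.Agent.Lib.MP_b8d9b4_co.Top.P.fin

/-!
# MP_b8d9b4_co: sizes of minimal dominating sets and of maximal irredundant sets of the queens graph

`Q_n` is the queens graph of the `n × n` board. There are constants `C` and `n0` such that `j` is the size of a set which is both a minimal dominating set and a
maximal irredundant set of `Q_n`, for all `n` and `j` with (`3 j ≥ 2 n + 8`, or `n ≥ n0` and `j ≥ 0.502 n`) and (`j ≤ 2 n - 11` or `j ≤ 6 n - C n ^ (3/4)`).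
-/

set_option autoImplicit false

namespace Pool.Agent.Results.MP_b8d9b4_co.DominatingRange

open Pool.Agent.MP_b8d9b4_co.Top
open Pool.Agent.MP_b8d9b4_co.Low (both_of p_tri low_all)

theorem result : ∃ (C : ℝ) (n0 : ℕ), ∀ n j : ℕ,
    (2 * n + 8 ≤ 3 * j ∨ (n0 ≤ n ∧ 251 * n ≤ 500 * j)) →
    (j + 11 ≤ 2 * n ∨ (j : ℝ) + C * (n : ℝ) ^ (3 / 4 : ℝ) ≤ 6 * n) →
    ∃ S : Finset (Fin n × Fin n), IsMinDominating (queensGraph n) S ∧
      IsMaxIrredundant (queensGraph n) S ∧ S.card = j := by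
  have hcrt := p_crt
  have hpos := p_pos hcrt
  have hfree := p_free hcrt
  have hfpt := p_fpt hcrt
  have hphi := p_phi p_mphi p_mown hcrt
  have hH := p_H hcrt hpos p_mown p_mphi
  have hcov := p_cov hpos hfree p_mneed
  have hcfg := p_cfg hpos p_oth hfpt p_mown p_mneed hcov hphi hH
  have hcz := p_cz p_cnt p_mown p_mneed
  have hcphi := p_cphi p_cnt p_mphi hphi
  have hcphi0 := p_cphi0 hphi p_mphi
  have hcown := p_cown p_cnt p_mown
  have hmain := p_main p_core hcfg hcz hcphi hcphi0 hcown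
  exact (both_of p_tri low_all p_tr p_gr (p_stA p_core) (p_fin hmain) p_up).2

end Pool.Agent.Results.MP_b8d9b4_co.DominatingRange
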