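import Pool.Agent.Lib.MP_b8d9b4_co.Low.Asm

/-!
# MP_b8d9b4_co: sizes of the maximal independent sets of the queens graph

`Q_n` is the queens graph of the `n × n` board. There is a constant `n0` such that, for all `n` and `j` with `3 j ≥ 2 n + 8`, or `n ≥ n0` and `j ≥ 0.502 n`, the graph `Q_n` has a
maximal independent set with exactly `j` vertices if and only if `j ≤ n`.
-/

set_option autoImplicit false

namespace Pool.Agent.Results.MP_b8d9b4_co.MaxIndepSizes

open Pool.Agent.MP_b8d9b4_co.Top (queensGraph)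
open Pool.Agent.MP_b8d9b4_co.Low (indep_of p_tri low_all)

theorem result : ∃ n0 : ℕ, ∀ n j : ℕ,
    (2 * n + 8 ≤ 3 * j ∨ (n0 ≤ n ∧ 251 * n ≤ 500 * j)) →
    ((∃ S : Finset (Fin n × Fin n), Maximal (fun T : Finset (Fin n × Fin n) =>
      (queensGraph n).IsIndepSet (T : Set (Fin n × Fin n))) S ∧ S.card = j) ↔ j ≤ n) :=
  indep_of p_tri low_all

end Pool.Agent.Results.MP_b8d9b4_co.MaxIndepSizes
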